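import Pool.Agent.H.MP_676d90_ag.Upper

/-!
# The least Hilbert function of `r` double points of `ℙ^n`

Among all sets of `r` points of `ℙ^n` the collinear ones have the least Hilbert function of
double points, and this function is `d ↦ min(d+1, 2r) + (n-1) min(d, r)`.
-/

namespace Pool.Agent.Results.MP_676d90_ag.LeastElement

open Pool.Agent.H.MP_676d90_ag

theorem result (n r : ℕ) (hn : 1 ≤ n) :
    ∃ Y₀ : Finset (Projectivization ℂ (Fin (n + 1) → ℂ)), Y₀.card = r ∧
      (∀ Y : Finset (Projectivization ℂ (Fin (n + 1) → ℂ)), Y.card = r →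
        ∀ d, hilbert (symbolicSquare Y₀) d ≤ hilbert (symbolicSquare Y) d) ∧
      (∀ d, hilbert (symbolicSquare Y₀) d = min (d + 1) (2 * r) + (n - 1) * min d r) := by
  refine ⟨cset n r hn, card_cset r hn, fun Y hY d => ?_, fun d => ?_⟩
  · exact (upper_bound hn d).trans (lower_bound hn Y hY)
  · exact le_antisymm (upper_bound hn d) (lower_bound hn _ (card_cset r hn))

end Pool.Agent.Results.MP_676d90_ag.LeastElement
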