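import Pool.Agent.H.MP_676d90_ag.FourBound
import Pool.Agent.H.MP_676d90_ag.Examples

/-!
# Double points in `ℙ³` on seven points with generic Hilbert function: no least element
-/

namespace Pool.Agent.Results.MP_676d90_ag.NoLeastGeneric

open Pool.Agent.H.MP_676d90_ag

theorem result :
    ∃ Y₁ Y₂ : Finset (Projectivization ℂ (Fin (3 + 1) → ℂ)),
      (Y₁.card = 7 ∧ GenericSupport Y₁) ∧ (Y₂.card = 7 ∧ GenericSupport Y₂) ∧
      ∀ Y : Finset (Projectivization ℂ (Fin (3 + 1) → ℂ)), Y.card = 7 → GenericSupport Y →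
        ¬ ((∀ d, 1 ≤ d → hilbert (symbolicSquare Y) d ≤ hilbert (symbolicSquare Y₁) d) ∧
          (∀ d, 1 ≤ d → hilbert (symbolicSquare Y) d ≤ hilbert (symbolicSquare Y₂) d)) := by
  refine ⟨data1.Y, data2.Y, ⟨data1.card_Y, data1.generic⟩, ⟨data2.card_Y, data2.generic⟩, ?_⟩
  rintro Y hc hgen ⟨h1, h2⟩
  have h3 := (h1 3 (by norm_num)).trans data1_bound
  have h4 := (h2 4 (by norm_num)).trans data2_bound
  have h5 := four_bound hgen hc h3
  omega

end Pool.Agent.Results.MP_676d90_ag.NoLeastGeneric
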